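import Pool.Agent.X170.MillerPos.Pos

/-!
# X170 : `E₄`, `E₆`, `Δ` on the imaginary axis (MP_e05153_nt)
-/

set_option autoImplicit false

open UpperHalfPlane hiding I
open Real Complex
open scoped Manifold MatrixGroups ModularForm Topology

namespace Pool.Agent.X170.MillerPos


/-- `q` on the imaginary axis -/
noncomputable def qr (τ : ℍ) : ℝ := Real.exp (-(2 * π * τ.im))

theorem qr_pos (τ : ℍ) : 0 < qr τ := Real.exp_pos _

theorem qr_lt {τ τ' : ℍ} (h : τ.im < τ'.im) : qr τ' < qr τ := by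
  unfold qr
  apply Real.exp_lt_exp.2
  have := Real.pi_pos
  nlinarith

theorem qParam_eq (τ : ℍ) (h : τ.re = 0) : Function.Periodic.qParam 1 τ = (qr τ : ℂ) := by
  unfold Function.Periodic.qParam qr
  rw [Complex.ofReal_exp]
  congr 1
  have h1 : (τ : ℂ) = (τ.im : ℂ) * I := by
    apply Complex.ext
    · simp only [UpperHalfPlane.coe_re, h, Complex.mul_re, Complex.ofReal_re, Complex.I_re,
        mul_zero, Complex.ofReal_im, Complex.I_im, mul_one, sub_self]
    · simp
  rw [h1]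
  push_cast
  have := Complex.I_sq
  linear_combination (2 * π * (τ.im : ℂ)) * this

theorem hasSum_E4 (τ : ℍ) : HasSum (fun m => PowerSeries.coeff m E4 • Function.Periodic.qParam 1 τ ^ m)
    (ModularForm.E₄ τ) := by
  have h := hasSum_qExpansion one_pos good_E4.1 good_E4.2.1 good_E4.2.2 τ
  rwa [qExpansion_E4] at h

theorem hasSum_E6 (τ : ℍ) : HasSum (fun m => PowerSeries.coeff m E6 • Function.Periodic.qParam 1 τ ^ m)
    (ModularForm.E₆ τ) := by
  have h := hasSum_qExpansion one_pos good_E6.1 good_E6.2.1 good_E6.2.2 τ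
  rwa [qExpansion_E6] at h

/-- real expansions give real values on the axis -/
theorem real_values {A : PowerSeries ℂ} {c : ℕ → ℝ} (hc : ∀ n, PowerSeries.coeff n A = (c n : ℂ))
    {z : ℂ} (τ : ℍ) (h0 : τ.re = 0)
    (h : HasSum (fun m => PowerSeries.coeff m A • Function.Periodic.qParam 1 τ ^ m) z) :
    ∃ r : ℝ, z = (r : ℂ) ∧ HasSum (fun m => c m * qr τ ^ m) r := by
  have e : (fun m => PowerSeries.coeff m A • Function.Periodic.qParam 1 τ ^ m) = fun m => ((c m * qr τ ^ m : ℝ) : ℂ) := by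
    funext m
    rw [hc, qParam_eq τ h0]
    push_cast
    rfl
  rw [e] at h
  have hi := Complex.hasSum_im h
  have hr := Complex.hasSum_re h
  simp only [Complex.ofReal_im, Complex.ofReal_re] at hi hr
  have h2 : z.im = 0 := hi.unique hasSum_zero
  exact ⟨z.re, Complex.ext (by simp) (by simp [h2]), hr⟩

noncomputable def c4 (n : ℕ) : ℝ := if n = 0 then 1 else 240 * (ArithmeticFunction.sigma 3 n : ℝ)

noncomputable def c6 (n : ℕ) : ℝ := if n = 0 then 1 else -504 * (ArithmeticFunction.sigma 5 n : ℝ)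

theorem c4_eq (n : ℕ) : PowerSeries.coeff n E4 = (c4 n : ℂ) := by
  rw [E4, PowerSeries.coeff_mk, c4]
  split_ifs <;> push_cast <;> rfl

theorem c6_eq (n : ℕ) : PowerSeries.coeff n E6 = (c6 n : ℂ) := by
  rw [E6, PowerSeries.coeff_mk, c6]
  split_ifs <;> push_cast <;> rfl

theorem E4_axis (τ : ℍ) (h0 : τ.re = 0) : ∃ r : ℝ, 0 < r ∧ ModularForm.E₄ τ = (r : ℂ) := by
  obtain ⟨r, hr, hs⟩ := real_values c4_eq τ h0 (hasSum_E4 τ)
  refine ⟨r, ?_, hr⟩
  have h1 : c4 0 * qr τ ^ 0 ≤ r := le_hasSum hs 0 (fun n _ => by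
    refine mul_nonneg ?_ (pow_nonneg (qr_pos τ).le _)
    unfold c4
    split_ifs
    · exact zero_le_one
    · positivity)
  have h2 : c4 0 * qr τ ^ 0 = 1 := by simp [c4]
  linarith

theorem E6_axis (τ : ℍ) (h0 : τ.re = 0) : ∃ r : ℝ, ModularForm.E₆ τ = (r : ℂ) ∧
    HasSum (fun m => c6 m * qr τ ^ m) r :=
  real_values c6_eq τ h0 (hasSum_E6 τ)

theorem E6_lt {τ τ' : ℍ} (h : τ.im < τ'.im) {r r' : ℝ}
    (hr : HasSum (fun m => c6 m * qr τ ^ m) r) (hr' : HasSum (fun m => c6 m * qr τ' ^ m) r') :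
    r < r' := by
  have hq := qr_lt h
  refine hasSum_lt (i := 1) (fun n => ?_) ?_ hr hr'
  · by_cases hn : n = 0
    · subst hn; simp
    · have h1 : qr τ' ^ n ≤ qr τ ^ n := pow_le_pow_left₀ (qr_pos _).le hq.le n
      have h2 : c6 n ≤ 0 := by
        unfold c6
        rw [if_neg hn]
        have : (0 : ℝ) ≤ (ArithmeticFunction.sigma 5 n : ℝ) := Nat.cast_nonneg _
        linarith
      exact mul_le_mul_of_nonpos_left h1 h2
  · have h2 : c6 1 = -504 := by simp [c6]
    rw [h2, pow_one, pow_one]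
    linarith

theorem E6_I : ModularForm.E₆ UpperHalfPlane.I = 0 := by
  have h1 := congrFun (slash_E6 ModularGroup.S) UpperHalfPlane.I
  rw [SlashInvariantForm.slash_S_apply] at h1
  have h2 : (⟨(-(UpperHalfPlane.I : ℂ))⁻¹, UpperHalfPlane.I.im_inv_neg_coe_pos⟩ : ℍ) =
      UpperHalfPlane.I := by
    apply UpperHalfPlane.ext
    simp
  rw [h2] at h1
  have h3 : ((UpperHalfPlane.I : ℍ) : ℂ) ^ (-(6 : ℤ)) = -1 := by
    rw [UpperHalfPlane.coe_I]
    have : Complex.I ^ (-(6 : ℤ)) = (Complex.I ^ 6)⁻¹ := by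
      rw [zpow_neg]
      norm_cast
    rw [this]
    have h6 : Complex.I ^ 6 = -1 := by
      calc Complex.I ^ 6 = (Complex.I ^ 2) ^ 3 := by ring
        _ = -1 := by rw [Complex.I_sq]; norm_num
    rw [h6]
    norm_num
  rw [h3] at h1
  linear_combination (-(1 / 2 : ℂ)) * h1

theorem E6_axis_zero (τ : ℍ) (h0 : τ.re = 0) : ModularForm.E₆ τ = 0 ↔ τ = UpperHalfPlane.I := by
  constructor
  · intro h
    obtain ⟨r, hr, hs⟩ := E6_axis τ h0
    obtain ⟨r', hr', hs'⟩ := E6_axis UpperHalfPlane.I (by simp)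
    rw [h] at hr
    rw [E6_I] at hr'
    have e1 : r = 0 := by exact_mod_cast hr.symm
    have e2 : r' = 0 := by exact_mod_cast hr'.symm
    rcases lt_trichotomy τ.im (UpperHalfPlane.I : ℍ).im with hlt | heq | hgt
    · have := E6_lt hlt hs hs'
      linarith
    · apply UpperHalfPlane.ext
      apply Complex.ext
      · simpa using h0
      · simpa using heq
    · have := E6_lt hgt hs' hs
      linarith
  · rintro rfl
    exact E6_I

open scoped ComplexOrder in
theorem tprod_nonneg' (f : ℕ → ℂ) (hf : ∀ n, 0 ≤ f n) : 0 ≤ ∏' n, f n := by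
  by_cases h : Multipliable f
  · exact ge_of_tendsto' h.hasProd (fun s => Finset.prod_nonneg fun i _ => hf i)
  · rw [tprod_eq_one_of_not_multipliable h]
    exact zero_le_one

open scoped ComplexOrder in
theorem Δ_axis (τ : ℍ) (h0 : τ.re = 0) : ∃ r : ℝ, 0 < r ∧ ModularForm.discriminant τ = (r : ℂ) := by
  have h1 : (0 : ℂ) ≤ ModularForm.discriminant τ := by
    rw [ModularForm.discriminant_eq_q_prod]
    refine mul_nonneg ?_ (tprod_nonneg' _ fun n => ?_)
    · rw [qParam_eq τ h0]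
      exact Complex.zero_le_real.2 (qr_pos τ).le
    · rw [ModularForm.eta_q_eq_pow]
      have e : cexp (2 * π * I * (τ : ℂ)) = (qr τ : ℂ) := by
        rw [← qParam_eq τ h0]
        simp [Function.Periodic.qParam]
      rw [e]
      have e2 : (1 - (qr τ : ℂ) ^ (n + 1)) ^ 24 = (((1 - qr τ ^ (n + 1)) ^ 24 : ℝ) : ℂ) := by
        push_cast
        rfl
      rw [e2]
      exact Complex.zero_le_real.2 (by positivity)
  have h2 : ModularForm.discriminant τ ≠ 0 := ModularForm.discriminant_ne_zero τ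
  have h3 : (0 : ℂ) < ModularForm.discriminant τ := lt_of_le_of_ne h1 h2.symm
  rw [Complex.lt_def] at h3
  refine ⟨(ModularForm.discriminant τ).re, by simpa using h3.1, Complex.ext (by simp) ?_⟩
  simpa using h3.2.symm

/-- `j` on the imaginary axis is real and at least `1728` -/
theorem j_axis (τ : ℍ) (h0 : τ.re = 0) : ∃ x : ℝ, 1728 ≤ x ∧
    ModularForm.E₄ τ ^ 3 / ModularForm.discriminant τ = (x : ℂ) := by
  obtain ⟨d, hd, hd2⟩ := Δ_axis τ h0
  obtain ⟨s, hs, _⟩ := E6_axis τ h0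
  obtain ⟨r, hr, hr2⟩ := E4_axis τ h0
  have h1 := ModularForm.discriminant_eq_E₄_cube_sub_E₆_sq τ
  rw [hd2, hs, hr2] at h1
  have h2 : d = (r ^ 3 - s ^ 2) / 1728 := by
    have : (d : ℂ) = (((r ^ 3 - s ^ 2) / 1728 : ℝ) : ℂ) := by
      rw [h1]; push_cast; rfl
    exact_mod_cast this
  refine ⟨r ^ 3 / d, ?_, ?_⟩
  · rw [le_div_iff₀ hd]
    nlinarith [sq_nonneg s]
  · rw [hd2, hr2]
    push_cast
    rfl

end Pool.Agent.X170.MillerPos
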