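import Mathlib

/-!
# X170 : derivatives of q-expansions and the weight 12 bracket (MP_e05153_nt)
-/

set_option autoImplicit false

open UpperHalfPlane hiding I
open Real Complex
open scoped Manifold MatrixGroups ModularForm Topology

namespace Pool.Agent.X170.MillerPos


/-- functions on the upper half plane with a convergent `q`-expansion -/
def Good (f : ℍ → ℂ) : Prop :=
  Function.Periodic (f ∘ ofComplex) ((1 : ℝ) : ℂ) ∧ MDiff f ∧ IsBoundedAtImInfty f

theorem Good.analytic {f : ℍ → ℂ} (hf : Good f) : AnalyticAt ℂ (cuspFunction 1 f) 0 :=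
  analyticAt_cuspFunction_zero one_pos hf.1 hf.2.1 hf.2.2

theorem good_of_modularForm {k : ℤ} (f : ModularForm 𝒮ℒ k) : Good f :=
  ⟨SlashInvariantFormClass.periodic_comp_ofComplex f one_mem_strictPeriods_SL,
    ModularFormClass.holo f, ModularFormClass.bdd_at_infty f⟩

theorem good_of_cuspForm {k : ℤ} (f : CuspForm 𝒮ℒ k) : Good f :=
  ⟨SlashInvariantFormClass.periodic_comp_ofComplex f one_mem_strictPeriods_SL,
    ModularFormClass.holo f, ModularFormClass.bdd_at_infty f⟩

theorem Good.mul {f g : ℍ → ℂ} (hf : Good f) (hg : Good g) : Good (f * g) := by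
  refine ⟨?_, hf.2.1.mul hg.2.1, hf.2.2.mul hg.2.2⟩
  intro z
  have h1 := hf.1 z
  have h2 := hg.1 z
  simp only [Function.comp_apply, Pi.mul_apply] at h1 h2 ⊢
  rw [h1, h2]

theorem Good.sub {f g : ℍ → ℂ} (hf : Good f) (hg : Good g) : Good (f - g) := by
  refine ⟨?_, hf.2.1.sub hg.2.1, ?_⟩
  · intro z
    have h1 := hf.1 z
    have h2 := hg.1 z
    simp only [Function.comp_apply, Pi.sub_apply] at h1 h2 ⊢
    rw [h1, h2]
  · exact hf.2.2.sub hg.2.2

theorem Good.add {f g : ℍ → ℂ} (hf : Good f) (hg : Good g) : Good (f + g) := by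
  refine ⟨?_, hf.2.1.add hg.2.1, ?_⟩
  · intro z
    have h1 := hf.1 z
    have h2 := hg.1 z
    simp only [Function.comp_apply, Pi.add_apply] at h1 h2 ⊢
    rw [h1, h2]
  · exact hf.2.2.add hg.2.2

theorem Good.smul {f : ℍ → ℂ} (hf : Good f) (c : ℂ) : Good (c • f) := by
  refine ⟨?_, hf.2.1.const_smul c, ?_⟩
  · intro z
    have h1 := hf.1 z
    simp only [Function.comp_apply, Pi.smul_apply] at h1 ⊢
    rw [h1]
  · exact hf.2.2.smul c

theorem uniq {f : ℍ → ℂ} (hf : Good f) {c : ℕ → ℂ}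
    (h : ∀ τ : ℍ, HasSum (fun m => c m • Function.Periodic.qParam 1 τ ^ m) (f τ)) (m : ℕ) :
    c m = (qExpansion 1 f).coeff m := by
  have h1 := (hasFPowerSeriesOnBall_cuspFunction one_pos hf.analytic h).hasFPowerSeriesAt
  have h2 := (hasFPowerSeriesOnBall_cuspFunction one_pos hf.analytic
    (hasSum_qExpansion one_pos hf.1 hf.2.1 hf.2.2)).hasFPowerSeriesAt
  simpa using congr_arg (FormalMultilinearSeries.coeff · m) (h1.eq_formalMultilinearSeries h2)

theorem qParam_add_one (w : ℂ) : Function.Periodic.qParam 1 (w + ((1 : ℝ) : ℂ)) = Function.Periodic.qParam 1 w := by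
  unfold Function.Periodic.qParam
  have : 2 * π * I * (w + ((1 : ℝ) : ℂ)) / ((1 : ℝ) : ℂ) =
      2 * π * I * w / ((1 : ℝ) : ℂ) + 2 * π * I := by
    push_cast
    ring
  rw [this, Complex.exp_periodic]

/-- a function given by a convergent expansion is periodic -/
theorem periodic_of_hasSum {f : ℍ → ℂ} {c : ℕ → ℂ}
    (h : ∀ τ : ℍ, HasSum (fun m => c m • Function.Periodic.qParam 1 τ ^ m) (f τ)) :
    Function.Periodic (f ∘ ofComplex) ((1 : ℝ) : ℂ) := by
  intro w
  by_cases! hw : 0 < im w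
  · have h0 : 0 < im (w + ((1 : ℝ) : ℂ)) := by simpa using hw
    simp only [Function.comp_apply, ofComplex_apply_of_im_pos h0, ofComplex_apply_of_im_pos hw]
    refine (h ⟨_, h0⟩).unique ?_
    have h1 := h ⟨w, hw⟩
    have h2 : Function.Periodic.qParam 1 ((⟨w + ((1 : ℝ) : ℂ), h0⟩ : ℍ) : ℂ) = Function.Periodic.qParam 1 ((⟨w, hw⟩ : ℍ) : ℂ) :=
      qParam_add_one w
    rw [h2]
    exact h1
  · have : im (w + ((1 : ℝ) : ℂ)) ≤ 0 := by simpa using hw
    simp only [Function.comp_apply]
    rw [ofComplex_apply_of_im_nonpos this, ofComplex_apply_of_im_nonpos hw]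

theorem good_of_hasSum {f : ℍ → ℂ} (hf : MDiff f) {c : ℕ → ℂ}
    (h : ∀ τ : ℍ, HasSum (fun m => c m • Function.Periodic.qParam 1 τ ^ m) (f τ)) : Good f :=
  ⟨periodic_of_hasSum h, hf, isBoundedAtImInfty_of_hasSum_qExpansion one_pos h⟩

/-- the formal `E₂` -/
noncomputable def E2s : PowerSeries ℂ :=
  PowerSeries.mk fun n => if n = 0 then 1 else -24 * (ArithmeticFunction.sigma 1 n : ℂ)

theorem hasSum_E2 (τ : ℍ) :
    HasSum (fun m => (if m = 0 then 1 else -24 * (ArithmeticFunction.sigma 1 m : ℂ)) • Function.Periodic.qParam 1 τ ^ m)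
      (EisensteinSeries.E2 τ) := by
  simpa only [Function.Periodic.qParam, ofReal_one, div_one] using
    EisensteinSeries.hasSum_qExpansion_E2 τ

theorem good_E2 : Good EisensteinSeries.E2 := good_of_hasSum E2_mdifferentiable hasSum_E2

theorem qExpansion_E2 : qExpansion 1 EisensteinSeries.E2 = E2s := by
  ext m
  rw [← uniq good_E2 hasSum_E2 m, E2s, PowerSeries.coeff_mk]

theorem hasDerivAt_qParam (z : ℂ) : HasDerivAt (Function.Periodic.qParam 1) (2 * π * I * Function.Periodic.qParam 1 z) z := by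
  have h1 : HasDerivAt (fun w : ℂ => 2 * π * I * w / ((1 : ℝ) : ℂ)) (2 * π * I) z := by
    simpa using (hasDerivAt_id z).const_mul (2 * π * I)
  have h2 := h1.cexp
  have h3 : HasDerivAt (Function.Periodic.qParam 1) (cexp (2 * π * I * z / ((1 : ℝ) : ℂ)) * (2 * π * I)) z := h2
  convert h3 using 1
  rw [mul_comm]
  rfl

theorem hasSum_D {f : ℍ → ℂ} (hf : Good f) (τ : ℍ) :
    HasSum (fun m => (PowerSeries.coeff m
      (PowerSeries.X * PowerSeries.derivative ℂ (qExpansion 1 f))) • Function.Periodic.qParam 1 τ ^ m)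
      (Derivative.normalizedDerivOfComplex f τ) := by
  have hq : ‖Function.Periodic.qParam 1 τ‖ < 1 := Function.Periodic.norm_qParam_lt_one one_pos τ.im_pos
  have hd := differentiableOn_cuspFunction_ball one_pos hf.1 hf.2.1 hf.2.2
  have hd2 : DifferentiableOn ℂ (deriv (cuspFunction 1 f)) (Metric.ball 0 1) :=
    hd.deriv Metric.isOpen_ball
  have h1 := Complex.hasSum_taylorSeries_on_ball hd2 (z := Function.Periodic.qParam 1 τ) (by simpa using hq)
  have h2 : ∀ n : ℕ, ((n.factorial : ℂ))⁻¹ • (Function.Periodic.qParam 1 τ - 0) ^ n •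
      iteratedDeriv n (deriv (cuspFunction 1 f)) 0 =
      PowerSeries.coeff n (PowerSeries.derivative ℂ (qExpansion 1 f)) • Function.Periodic.qParam 1 τ ^ n := by
    intro n
    rw [PowerSeries.coeff_derivative, qExpansion_coeff, iteratedDeriv_succ', sub_zero,
      Nat.factorial_succ]
    simp only [smul_eq_mul]
    push_cast
    have : (n.factorial : ℂ) ≠ 0 := by exact_mod_cast n.factorial_ne_zero
    have h3 : ((n : ℂ) + 1) ≠ 0 := by exact_mod_cast Nat.succ_ne_zero n
    field_simp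
  simp_rw [h2] at h1
  have h3 : Derivative.normalizedDerivOfComplex f τ =
      Function.Periodic.qParam 1 τ * deriv (cuspFunction 1 f) (Function.Periodic.qParam 1 τ) := by
    unfold Derivative.normalizedDerivOfComplex
    have e1 : f ∘ ofComplex = fun z => cuspFunction 1 f (Function.Periodic.qParam 1 z) := by
      funext z
      exact (Function.Periodic.eq_cuspFunction one_ne_zero hf.1 z).symm
    have e2 : HasDerivAt (cuspFunction 1 f) (deriv (cuspFunction 1 f) (Function.Periodic.qParam 1 τ)) (Function.Periodic.qParam 1 τ) :=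
      (differentiableAt_cuspFunction one_pos hf.1 hf.2.1 hf.2.2 hq).hasDerivAt
    have e3 := e2.comp (τ : ℂ) (hasDerivAt_qParam τ)
    have e4 : deriv (f ∘ ofComplex) (τ : ℂ) =
        deriv (cuspFunction 1 f) (Function.Periodic.qParam 1 τ) * (2 * π * I * Function.Periodic.qParam 1 τ) := by
      rw [e1]
      exact e3.deriv
    rw [e4]
    have : (2 * π * I : ℂ) ≠ 0 := two_pi_I_ne_zero
    field_simp
  rw [h3]
  have h4 : PowerSeries.coeff 0 (PowerSeries.X * PowerSeries.derivative ℂ (qExpansion 1 f)) = 0 := by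
    simp
  have h5 := h1.mul_left (Function.Periodic.qParam 1 τ)
  refine (hasSum_nat_add_iff' 1).1 ?_
  rw [Finset.sum_range_one, h4, zero_smul, sub_zero]
  have e5 : (fun n => PowerSeries.coeff (n + 1)
      (PowerSeries.X * PowerSeries.derivative ℂ (qExpansion 1 f)) • Function.Periodic.qParam 1 τ ^ (n + 1)) =
      fun i => Function.Periodic.qParam 1 τ * PowerSeries.coeff i (PowerSeries.derivative ℂ (qExpansion 1 f)) •
        Function.Periodic.qParam 1 τ ^ i := by
    funext n
    rw [PowerSeries.coeff_succ_X_mul]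
    simp only [smul_eq_mul]
    ring
  rw [e5]
  exact h5

theorem good_D {f : ℍ → ℂ} (hf : Good f) : Good (Derivative.normalizedDerivOfComplex f) :=
  good_of_hasSum (Derivative.normalizedDerivOfComplex_mdifferentiable hf.2.1) (hasSum_D hf)

theorem qExpansion_D {f : ℍ → ℂ} (hf : Good f) :
    qExpansion 1 (Derivative.normalizedDerivOfComplex f) =
      PowerSeries.X * PowerSeries.derivative ℂ (qExpansion 1 f) := by
  ext m
  rw [← uniq (good_D hf) (hasSum_D hf) m]

/-! ### the discriminant -/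

/-- `E₄ = 1 + 240 Σ σ₃(n) qⁿ` -/
noncomputable def E4 : PowerSeries ℂ :=
  PowerSeries.mk fun n => if n = 0 then 1 else 240 * (ArithmeticFunction.sigma 3 n : ℂ)

/-- `E₆ = 1 - 504 Σ σ₅(n) qⁿ` -/
noncomputable def E6 : PowerSeries ℂ :=
  PowerSeries.mk fun n => if n = 0 then 1 else -504 * (ArithmeticFunction.sigma 5 n : ℂ)

/-- `Δ = (E₄³ - E₆²) / 1728` -/
noncomputable def Dl : PowerSeries ℂ := PowerSeries.C (1 / 1728 : ℂ) * (E4 ^ 3 - E6 ^ 2)

theorem qExpansion_E4 : qExpansion 1 ModularForm.E₄ = E4 := by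
  ext m
  rw [EisensteinSeries.E_qExpansion_coeff _ ⟨2, rfl⟩, E4, PowerSeries.coeff_mk]
  norm_num [show bernoulli 4 = -1 / 30 by decide +kernel]

theorem qExpansion_E6 : qExpansion 1 ModularForm.E₆ = E6 := by
  ext m
  rw [EisensteinSeries.E_qExpansion_coeff _ ⟨3, rfl⟩, E6, PowerSeries.coeff_mk]
  norm_num [show bernoulli 6 = 1 / 42 by decide +kernel]

theorem good_E4 : Good ModularForm.E₄ := good_of_modularForm _

theorem good_E6 : Good ModularForm.E₆ := good_of_modularForm _

theorem good_Δ : Good ModularForm.discriminant := good_of_cuspForm CuspForm.discriminant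

theorem qExpansion_Δ : qExpansion 1 ModularForm.discriminant = Dl := by
  have h1 : ModularForm.discriminant = (1 / 1728 : ℂ) •
      ((ModularForm.E₄ : ℍ → ℂ) * ModularForm.E₄ * ModularForm.E₄ -
        (ModularForm.E₆ : ℍ → ℂ) * ModularForm.E₆) := by
    funext z
    rw [ModularForm.discriminant_eq_E₄_cube_sub_E₆_sq]
    simp only [Pi.smul_apply, Pi.sub_apply, Pi.mul_apply, smul_eq_mul]
    ring
  have g4 := good_E4
  have g6 := good_E6
  rw [h1, qExpansion_smul (((g4.mul g4).mul g4).sub (g6.mul g6)).analytic,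
    qExpansion_sub ((g4.mul g4).mul g4).analytic (g6.mul g6).analytic,
    qExpansion_mul (g4.mul g4).analytic g4.analytic, qExpansion_mul g4.analytic g4.analytic,
    qExpansion_mul g6.analytic g6.analytic, qExpansion_E4, qExpansion_E6, Dl,
    PowerSeries.smul_eq_C_mul]
  ring

/-- `D Δ = E₂ Δ` -/
theorem D_Δ : Derivative.normalizedDerivOfComplex ModularForm.discriminant =
    EisensteinSeries.E2 * ModularForm.discriminant := by
  funext z
  have hz : (z : ℂ) ∈ upperHalfPlaneSet := z.im_pos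
  have h0 := ModularForm.logDeriv_eta_eq_E2 z
  have hη := ModularForm.eta_ne_zero hz
  have hd := ModularForm.differentiableAt_eta_of_mem_upperHalfPlaneSet hz
  have h1 : deriv ModularForm.eta z = π * I / 12 * EisensteinSeries.E2 z * ModularForm.eta z := by
    rw [logDeriv_apply] at h0
    rw [← h0]
    field_simp
  unfold Derivative.normalizedDerivOfComplex
  have h2 : ModularForm.discriminant ∘ ofComplex =ᶠ[𝓝 (z : ℂ)]
      fun w => ModularForm.eta w ^ 24 := by
    filter_upwards [isOpen_upperHalfPlaneSet.mem_nhds z.im_pos] with w hw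
    simp [ModularForm.discriminant, ofComplex_apply_of_im_pos hw]
  rw [h2.deriv_eq, deriv_fun_pow hd, h1]
  simp only [Pi.mul_apply, ModularForm.discriminant]
  have : (2 * π * I : ℂ) ≠ 0 := two_pi_I_ne_zero
  have h3 : (π : ℂ) ≠ 0 := by exact_mod_cast Real.pi_ne_zero
  field_simp
  push_cast
  ring

/-- (I2) `q dΔ/dq = E₂ Δ` -/
theorem I2 : PowerSeries.X * PowerSeries.derivative ℂ Dl = E2s * Dl := by
  rw [← qExpansion_Δ, ← qExpansion_D good_Δ, D_Δ, qExpansion_mul good_E2.analytic good_Δ.analytic,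
    qExpansion_E2]

/-! ### the bracket `2 E₄ E₆' - 3 E₆ E₄'` -/

/-- level one forms from functions -/
noncomputable def mkMF (k : ℤ) (f : ℍ → ℂ) (hf : Good f) (hs : ∀ A : SL(2, ℤ), f ∣[k] A = f) :
    ModularForm 𝒮ℒ k where
  toFun := f
  slash_action_eq' A hA := by
    obtain ⟨A, rfl⟩ := hA
    exact hs A
  holo' := hf.2.1
  bdd_at_cusps' hc := by
    rw [Subgroup.IsArithmetic.isCusp_iff_isCusp_SL2Z] at hc
    rw [OnePoint.isBoundedAt_iff_forall_SL2Z hc]
    intro γ _
    rw [hs γ]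
    exact hf.2.2

theorem serre_eq (k : ℂ) (f : ℍ → ℂ) : Derivative.serreDerivative k f =
    Derivative.normalizedDerivOfComplex f - (k * 12⁻¹) • (EisensteinSeries.E2 * f) := by
  funext z
  simp only [Derivative.serreDerivative, Pi.sub_apply, Pi.smul_apply, Pi.mul_apply, smul_eq_mul]
  ring

theorem good_serre (k : ℂ) {f : ℍ → ℂ} (hf : Good f) : Good (Derivative.serreDerivative k f) := by
  rw [serre_eq]
  exact (good_D hf).sub ((good_E2.mul hf).smul _)

theorem qExpansion_serre (k : ℂ) {f : ℍ → ℂ} (hf : Good f) :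
    qExpansion 1 (Derivative.serreDerivative k f) =
      PowerSeries.X * PowerSeries.derivative ℂ (qExpansion 1 f) -
        PowerSeries.C (k * 12⁻¹) * (E2s * qExpansion 1 f) := by
  rw [serre_eq, qExpansion_sub (good_D hf).analytic ((good_E2.mul hf).smul _).analytic,
    qExpansion_D hf, qExpansion_smul (good_E2.mul hf).analytic,
    qExpansion_mul good_E2.analytic hf.analytic, qExpansion_E2, PowerSeries.smul_eq_C_mul]

theorem slash_E4 (A : SL(2, ℤ)) : (ModularForm.E₄ : ℍ → ℂ) ∣[(4 : ℤ)] A = ModularForm.E₄ :=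
  ModularForm.E₄.slash_action_eq' _ ⟨A, rfl⟩

theorem slash_E6 (A : SL(2, ℤ)) : (ModularForm.E₆ : ℍ → ℂ) ∣[(6 : ℤ)] A = ModularForm.E₆ :=
  ModularForm.E₆.slash_action_eq' _ ⟨A, rfl⟩

noncomputable def S4 : ModularForm 𝒮ℒ 6 :=
  mkMF 6 (Derivative.serreDerivative ((4 : ℤ) : ℂ) ModularForm.E₄) (good_serre _ good_E4)
    (fun A => Derivative.serreDerivative_slash_invariant (k := 4) good_E4.2.1 (slash_E4 A))

noncomputable def S6 : ModularForm 𝒮ℒ 8 :=
  mkMF 8 (Derivative.serreDerivative ((6 : ℤ) : ℂ) ModularForm.E₆) (good_serre _ good_E6)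
    (fun A => Derivative.serreDerivative_slash_invariant (k := 6) good_E6.2.1 (slash_E6 A))

noncomputable def G12 : ModularForm 𝒮ℒ 12 :=
  (2 : ℂ) • ModularForm.mcast (by decide) (ModularForm.E₄.mul S6) -
    (3 : ℂ) • ModularForm.mcast (by decide) (ModularForm.E₆.mul S4)

theorem qExpansion_S4 : qExpansion 1 S4 = PowerSeries.X * PowerSeries.derivative ℂ E4 -
    PowerSeries.C (1 / 3 : ℂ) * (E2s * E4) := by
  have h := qExpansion_serre ((4 : ℤ) : ℂ) good_E4
  rw [qExpansion_E4] at h
  have e : (((4 : ℤ) : ℂ) * 12⁻¹) = 1 / 3 := by norm_num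
  rw [e] at h
  exact h

theorem qExpansion_S6 : qExpansion 1 S6 = PowerSeries.X * PowerSeries.derivative ℂ E6 -
    PowerSeries.C (1 / 2 : ℂ) * (E2s * E6) := by
  have h := qExpansion_serre ((6 : ℤ) : ℂ) good_E6
  rw [qExpansion_E6] at h
  have e : (((6 : ℤ) : ℂ) * 12⁻¹) = 1 / 2 := by norm_num
  rw [e] at h
  exact h

theorem qExpansion_G12 : qExpansion 1 G12 =
    2 * E4 * (PowerSeries.X * PowerSeries.derivative ℂ E6) -
      3 * E6 * (PowerSeries.X * PowerSeries.derivative ℂ E4) := by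
  have h1 : (G12 : ℍ → ℂ) = (2 : ℂ) • ((ModularForm.E₄ : ℍ → ℂ) * (S6 : ℍ → ℂ)) -
      (3 : ℂ) • ((ModularForm.E₆ : ℍ → ℂ) * (S4 : ℍ → ℂ)) := rfl
  have g6 : Good (S6 : ℍ → ℂ) := good_of_modularForm _
  have g4 : Good (S4 : ℍ → ℂ) := good_of_modularForm _
  rw [h1, qExpansion_sub ((good_E4.mul g6).smul _).analytic ((good_E6.mul g4).smul _).analytic,
    qExpansion_smul (good_E4.mul g6).analytic, qExpansion_smul (good_E6.mul g4).analytic,
    qExpansion_mul good_E4.analytic g6.analytic, qExpansion_mul good_E6.analytic g4.analytic,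
    qExpansion_E4, qExpansion_E6, qExpansion_S4, qExpansion_S6, PowerSeries.smul_eq_C_mul,
    PowerSeries.smul_eq_C_mul]
  have c2 : (PowerSeries.C (2 : ℂ)) * PowerSeries.C (1 / 2 : ℂ) = 1 := by
    rw [← map_mul]; norm_num
  have c3 : (PowerSeries.C (3 : ℂ)) * PowerSeries.C (1 / 3 : ℂ) = 1 := by
    rw [← map_mul]; norm_num
  have c2' : (PowerSeries.C (2 : ℂ)) = 2 := map_ofNat _ 2
  have c3' : (PowerSeries.C (3 : ℂ)) = 3 := map_ofNat _ 3
  rw [c2'] at c2 ⊢
  rw [c3'] at c3 ⊢
  linear_combination (-(E2s * E4 * E6)) * c2 + (E2s * E4 * E6) * c3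

theorem qExpansion_G12' : ∃ c : ℂ, qExpansion 1 G12 = PowerSeries.C c * Dl := by
  have h0 : (qExpansion 1 G12).coeff 0 = 0 := by
    rw [qExpansion_G12, PowerSeries.coeff_zero_eq_constantCoeff_apply]
    simp
  have hc : ModularForm.IsCuspForm G12 := (ModularForm.isCuspForm_iff_coeffZero_eq_zero _).2 h0
  obtain ⟨g, hg⟩ := hc
  obtain ⟨c, hc⟩ := CuspForm.exists_smul_discriminant_of_weight_eq_twelve g
  have hgE : (g : ℍ → ℂ) = G12 := congrArg DFunLike.coe hg
  have hcΔ : (c • CuspForm.discriminant : ℍ → ℂ) = g := congrArg DFunLike.coe hc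
  refine ⟨c, ?_⟩
  rw [← hgE, ← hcΔ]
  have h1 : (c • CuspForm.discriminant : ℍ → ℂ) = c • ModularForm.discriminant := rfl
  rw [h1, qExpansion_smul good_Δ.analytic, qExpansion_Δ, PowerSeries.smul_eq_C_mul]

theorem Dl_coeff_one : PowerSeries.coeff 1 Dl = 1 := by
  rw [← qExpansion_Δ]
  exact ModularForm.discriminant_qExpansion_coeff_one

/-- (I1) `2 E₄ E₆' - 3 E₆ E₄' = -1728 Δ` with `' = q d/dq` -/
theorem I1 : 2 * E4 * (PowerSeries.X * PowerSeries.derivative ℂ E6) -
    3 * E6 * (PowerSeries.X * PowerSeries.derivative ℂ E4) = -(1728 * Dl) := by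
  obtain ⟨c, hc⟩ := qExpansion_G12'
  rw [qExpansion_G12] at hc
  have h1 := congrArg (PowerSeries.coeff 1) hc
  have h2 : PowerSeries.coeff 1 (2 * E4 * (PowerSeries.X * PowerSeries.derivative ℂ E6) -
    3 * E6 * (PowerSeries.X * PowerSeries.derivative ℂ E4)) = -1728 := by
    have e : 2 * E4 * (PowerSeries.X * PowerSeries.derivative ℂ E6) -
        3 * E6 * (PowerSeries.X * PowerSeries.derivative ℂ E4) =
        PowerSeries.X * (2 * E4 * PowerSeries.derivative ℂ E6 -
          3 * E6 * PowerSeries.derivative ℂ E4) := by ring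
    have ex : ∀ P : PowerSeries ℂ, PowerSeries.coeff 1 (PowerSeries.X * P) =
        PowerSeries.constantCoeff P := by
      intro P
      have := PowerSeries.coeff_succ_X_mul 0 P
      rwa [PowerSeries.coeff_zero_eq_constantCoeff_apply] at this
    rw [e, ex]
    have a4 : PowerSeries.constantCoeff E4 = 1 := by
      rw [← PowerSeries.coeff_zero_eq_constantCoeff_apply]; simp [E4]
    have a6 : PowerSeries.constantCoeff E6 = 1 := by
      rw [← PowerSeries.coeff_zero_eq_constantCoeff_apply]; simp [E6]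
    have b4 : PowerSeries.constantCoeff (PowerSeries.derivative ℂ E4) = 240 := by
      rw [← PowerSeries.coeff_zero_eq_constantCoeff_apply, PowerSeries.coeff_derivative]
      simp [E4]
    have b6 : PowerSeries.constantCoeff (PowerSeries.derivative ℂ E6) = -504 := by
      rw [← PowerSeries.coeff_zero_eq_constantCoeff_apply, PowerSeries.coeff_derivative]
      simp [E6]
    simp only [map_sub, map_mul, a4, a6, b4, b6, map_ofNat]
    norm_num
  rw [h2, PowerSeries.coeff_C_mul, Dl_coeff_one, mul_one] at h1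
  have c1728 : (PowerSeries.C (1728 : ℂ)) = 1728 := map_ofNat _ 1728
  rw [hc, ← h1, map_neg, c1728]
  ring

end Pool.Agent.X170.MillerPos
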