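import Pool.Agent.X170.MillerPos.Formal

/-!
# X170 : existence and uniqueness of the Faber polynomial (MP_e05153_nt)
-/

set_option autoImplicit false

namespace Pool.Agent.X170.MillerPos

open PowerSeries

theorem coeff_base (a b k n : ℕ) (hn : n ≤ k) :
    PowerSeries.coeff n (E4 ^ a * E6 ^ b * Dl ^ k) = if n = k then 1 else 0 := by
  have h1 : E4 ^ a * E6 ^ b * Dl ^ k = PowerSeries.X ^ k * (E4 ^ a * E6 ^ b * U ^ k) := by
    rw [Dl_eq, mul_pow]
    ring
  rw [h1, PowerSeries.coeff_X_pow_mul']
  by_cases h : n = k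
  · subst h
    rw [if_pos le_rfl, if_pos rfl, Nat.sub_self, PowerSeries.coeff_zero_eq_constantCoeff_apply]
    simp [E4_zero, E6_zero, U_zero]
  · rw [if_neg (by omega), if_neg h]

theorem form_add (a b l : ℕ) (F F' : Polynomial ℂ) :
    form a b l (F + F') = form a b l F + form a b l F' := by
  unfold form
  rw [← Finset.sum_add_distrib]
  refine Finset.sum_congr rfl fun i _ => ?_
  rw [Polynomial.coeff_add, map_add, add_mul]

theorem form_monomial (a b l k : ℕ) (hk : k ≤ l) (c : ℂ) :
    form a b l (Polynomial.monomial k c) =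
      PowerSeries.C c * (E4 ^ (3 * k + a) * E6 ^ b * Dl ^ (l - k)) := by
  unfold form
  rw [Finset.sum_eq_single k]
  · rw [Polynomial.coeff_monomial, if_pos rfl]
  · intro i _ hi
    rw [Polynomial.coeff_monomial, if_neg (Ne.symm hi), map_zero, zero_mul]
  · intro h
    exact absurd (Finset.mem_range.2 (by omega)) h

theorem exists_poly (a b l : ℕ) : ∀ d ≤ l + 1,
    ∀ T : PowerSeries ℂ, (∀ n < l + 1 - d, PowerSeries.coeff n T = 0) →
    ∃ F : Polynomial ℂ, (∀ i, d ≤ i → F.coeff i = 0) ∧
      (0 < d → F.coeff (d - 1) = PowerSeries.coeff (l + 1 - d) T) ∧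
      ∀ n ≤ l, PowerSeries.coeff n (form a b l F) = PowerSeries.coeff n T := by
  intro d
  induction d with
  | zero =>
    intro _ T hT
    refine ⟨0, by simp, fun h => absurd h (lt_irrefl 0), ?_⟩
    intro n hn
    rw [hT n (by omega)]
    simp [form]
  | succ d ih =>
    intro hd T hT
    set c : ℂ := PowerSeries.coeff (l - d) T with hc
    obtain ⟨F, hF1, _, hF3⟩ := ih (by omega)
      (T - PowerSeries.C c * (E4 ^ (3 * d + a) * E6 ^ b * Dl ^ (l - d))) (by
        intro n hn
        rw [map_sub, PowerSeries.coeff_C_mul, coeff_base _ _ _ _ (by omega)]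
        by_cases h : n = l - d
        · rw [if_pos h, h, ← hc]
          ring
        · rw [if_neg h, hT n (by omega)]
          ring)
    refine ⟨F + Polynomial.monomial d c, ?_, ?_, ?_⟩
    · intro i hi
      rw [Polynomial.coeff_add, hF1 i (by omega), Polynomial.coeff_monomial, if_neg (by omega),
        add_zero]
    · intro _
      have e1 : l + 1 - (d + 1) = l - d := by omega
      rw [Nat.add_sub_cancel, Polynomial.coeff_add, hF1 d le_rfl, Polynomial.coeff_monomial,
        if_pos rfl, zero_add, e1]
    · intro n hn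
      rw [form_add, form_monomial a b l d (by omega), map_add, hF3 n hn, map_sub]
      ring

theorem exists_faber (a b l m : ℕ) (hml : m ≤ l) :
    ∃ F : Polynomial ℂ, F.Monic ∧ F.natDegree = l - m ∧
      ∀ n ≤ l, PowerSeries.coeff n (form a b l F) = if n = m then 1 else 0 := by
  obtain ⟨F, h1, h2, h3⟩ := exists_poly a b l (l - m + 1) (by omega) (PowerSeries.X ^ m) (by
    intro n hn
    rw [PowerSeries.coeff_X_pow, if_neg (by omega)])
  have e1 : l + 1 - (l - m + 1) = m := by omega
  rw [Nat.add_sub_cancel, e1, PowerSeries.coeff_X_pow, if_pos rfl] at h2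
  have h4 := h2 (by omega)
  have hdeg : F.natDegree = l - m := by
    apply le_antisymm
    · rw [Polynomial.natDegree_le_iff_coeff_eq_zero]
      intro i hi
      exact h1 i (by omega)
    · exact Polynomial.le_natDegree_of_ne_zero (by rw [h4]; exact one_ne_zero)
  refine ⟨F, ?_, hdeg, ?_⟩
  · unfold Polynomial.Monic Polynomial.leadingCoeff
    rw [hdeg, h4]
  · intro n hn
    rw [h3 n hn, PowerSeries.coeff_X_pow]

theorem form_unique (a b l : ℕ) (F F' : Polynomial ℂ) (hd : F.natDegree ≤ l)
    (hd' : F'.natDegree ≤ l) (h : ∀ n ≤ l, PowerSeries.coeff n (form a b l F) =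
      PowerSeries.coeff n (form a b l F')) : F = F' := by
  by_contra hne
  have h0 : F - F' ≠ 0 := sub_ne_zero.2 hne
  set P := F - F' with hP
  have hdeg : P.natDegree ≤ l := by
    refine (Polynomial.natDegree_sub_le _ _).trans ?_
    omega
  have h1 : form a b l F = form a b l F' + form a b l P := by
    rw [← form_add, hP]
    congr 1
    ring
  have h2 : PowerSeries.coeff (l - P.natDegree) (form a b l P) = 0 := by
    have h3 := h (l - P.natDegree) (by omega)
    rw [h1, map_add] at h3
    exact add_eq_left.1 h3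
  have h4 : PowerSeries.coeff (l - P.natDegree) (form a b l P) = P.coeff P.natDegree := by
    unfold form
    rw [map_sum, Finset.sum_eq_single P.natDegree]
    · rw [PowerSeries.coeff_C_mul, coeff_base _ _ _ _ le_rfl, if_pos rfl, mul_one]
    · intro i hi hine
      rw [Finset.mem_range] at hi
      rw [PowerSeries.coeff_C_mul]
      rcases lt_or_gt_of_ne hine with h | h
      · rw [coeff_base _ _ _ _ (by omega), if_neg (by omega), mul_zero]
      · rw [Polynomial.coeff_eq_zero_of_natDegree_lt h, zero_mul]
    · intro h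
      exact absurd (Finset.mem_range.2 (by omega)) h
  rw [h4] at h2
  exact h0 (Polynomial.leadingCoeff_eq_zero.1 h2)

end Pool.Agent.X170.MillerPos
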