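import Pool.Agent.X170.MillerPos.Analytic

/-!
# X170 : the Faber polynomial at a real point `≥ 1728` (MP_e05153_nt)
-/

set_option autoImplicit false

namespace Pool.Agent.X170.MillerPos

open PowerSeries

theorem E4_zero : PowerSeries.constantCoeff E4 = 1 := by
  rw [← PowerSeries.coeff_zero_eq_constantCoeff_apply]
  simp [E4]

theorem E6_zero : PowerSeries.constantCoeff E6 = 1 := by
  rw [← PowerSeries.coeff_zero_eq_constantCoeff_apply]
  simp [E6]

/-- `U = Δ / q` -/
noncomputable def U : PowerSeries ℂ := PowerSeries.mk fun n => PowerSeries.coeff (n + 1) Dl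

theorem Dl_zero : PowerSeries.coeff 0 Dl = 0 := by
  rw [PowerSeries.coeff_zero_eq_constantCoeff_apply]
  simp [Dl, E4_zero, E6_zero]

theorem Dl_eq : Dl = PowerSeries.X * U := by
  ext n
  cases n with
  | zero =>
    rw [Dl_zero]
    simp
  | succ n =>
    rw [PowerSeries.coeff_succ_X_mul]
    simp [U]

theorem U_zero : PowerSeries.constantCoeff U = 1 := by
  rw [← PowerSeries.coeff_zero_eq_constantCoeff_apply, U, PowerSeries.coeff_mk]
  exact Dl_coeff_one

theorem Dl_ne : Dl ≠ 0 := by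
  intro h
  have := Dl_coeff_one
  rw [h] at this
  simp at this

theorem Dl_1728 : 1728 * Dl = E4 ^ 3 - E6 ^ 2 := by
  unfold Dl
  have : (1728 : PowerSeries ℂ) * PowerSeries.C (1 / 1728 : ℂ) = 1 := by
    have e : (1728 : PowerSeries ℂ) = PowerSeries.C (1728 : ℂ) := (map_ofNat _ 1728).symm
    rw [e, ← map_mul]
    norm_num
  rw [← mul_assoc, this, one_mul]

theorem E4_mul_inv : E4 * E4⁻¹ = 1 := PowerSeries.mul_inv_cancel _ (by rw [E4_zero]; exact one_ne_zero)

theorem E6_mul_inv : E6 * E6⁻¹ = 1 := PowerSeries.mul_inv_cancel _ (by rw [E6_zero]; exact one_ne_zero)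

theorem U_mul_inv : U * U⁻¹ = 1 := PowerSeries.mul_inv_cancel _ (by rw [U_zero]; exact one_ne_zero)

/-- `q U' = (E₂ - 1) U` -/
theorem U_deriv : U + PowerSeries.X * PowerSeries.derivative ℂ U = E2s * U := by
  have h1 := I2
  rw [Dl_eq, Derivation.leibniz, PowerSeries.derivative_X] at h1
  simp only [smul_eq_mul, mul_one] at h1
  have h2 : PowerSeries.X * (U + PowerSeries.X * PowerSeries.derivative ℂ U) =
      PowerSeries.X * (E2s * U) := by
    linear_combination h1
  exact mul_left_cancel₀ PowerSeries.X_ne_zero h2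

/-- Ramanujan: `3 q E₄' = E₂ E₄ - E₆` -/
theorem E4_deriv : 3 * (PowerSeries.X * PowerSeries.derivative ℂ E4) = E2s * E4 - E6 := by
  have h1 := I2
  have h2 := I1
  have h3 := Dl_1728
  have h4 : 1728 * (PowerSeries.X * PowerSeries.derivative ℂ Dl) =
      3 * E4 ^ 2 * (PowerSeries.X * PowerSeries.derivative ℂ E4) -
      2 * E6 * (PowerSeries.X * PowerSeries.derivative ℂ E6) := by
    have h5 := congrArg (PowerSeries.derivative ℂ) h3
    rw [Derivation.leibniz, map_sub, Derivation.leibniz_pow, Derivation.leibniz_pow] at h5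
    have h6 : PowerSeries.derivative ℂ (1728 : PowerSeries ℂ) = 0 := by
      have e : (1728 : PowerSeries ℂ) = ((1728 : ℕ) : PowerSeries ℂ) := by norm_num
      rw [e]
      exact Derivation.map_natCast _ _
    rw [h6] at h5
    simp only [smul_eq_mul, nsmul_eq_mul, mul_zero, add_zero, Nat.cast_ofNat] at h5
    linear_combination PowerSeries.X * h5
  have h7 : Dl * (3 * (PowerSeries.X * PowerSeries.derivative ℂ E4)) =
      Dl * (E2s * E4 - E6) := by
    have h8 : (1728 : PowerSeries ℂ) * (Dl * (3 * (PowerSeries.X * PowerSeries.derivative ℂ E4))) =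
        1728 * (Dl * (E2s * E4 - E6)) := by
      linear_combination (3 * (PowerSeries.X * PowerSeries.derivative ℂ E4)) * h3 +
        (1728 * E4) * h1 - E4 * h4 + E6 * h2
    have h9 : (1728 : PowerSeries ℂ) ≠ 0 := by
      intro h
      have h10 := congrArg PowerSeries.constantCoeff h
      rw [map_ofNat, map_zero] at h10
      norm_num at h10
    exact mul_left_cancel₀ h9 h8
  exact mul_left_cancel₀ Dl_ne h7

/-- `j = J / q` -/
noncomputable def J : PowerSeries ℂ := E4 ^ 3 * U⁻¹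

noncomputable def H : PowerSeries ℂ := E4 ^ 2 * E6 * U⁻¹

theorem J_deriv : J - PowerSeries.X * PowerSeries.derivative ℂ J = H := by
  have h2 := U_mul_inv
  have hd : PowerSeries.derivative ℂ J = 3 * E4 ^ 2 * PowerSeries.derivative ℂ E4 * U⁻¹ +
      E4 ^ 3 * (-U⁻¹ ^ 2 * PowerSeries.derivative ℂ U) := by
    unfold J
    rw [Derivation.leibniz, PowerSeries.derivative_inv', Derivation.leibniz_pow]
    simp only [smul_eq_mul, nsmul_eq_mul, Nat.cast_ofNat]
    ring
  rw [hd]
  unfold H J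
  have h3 := U_deriv
  have h4 := E4_deriv
  linear_combination (-(E4 ^ 2 * U⁻¹)) * h4 + (E4 ^ 3 * U⁻¹ ^ 2) * h3 +
    (E4 ^ 3 * U⁻¹ * (E2s - 1)) * h2

theorem coeff_HJ (i : ℕ) : PowerSeries.coeff (i + 1) (H * J ^ i) = 0 := by
  have h1 : ((i + 1 : ℕ) : PowerSeries ℂ) * (H * J ^ i) =
      ((i + 1 : ℕ) : PowerSeries ℂ) * J ^ (i + 1) -
        PowerSeries.X * PowerSeries.derivative ℂ (J ^ (i + 1)) := by
    rw [Derivation.leibniz_pow]
    simp only [smul_eq_mul, nsmul_eq_mul, Nat.add_sub_cancel]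
    rw [← J_deriv]
    ring
  have h4 := congrArg (PowerSeries.coeff (i + 1)) h1
  have hC : ((i + 1 : ℕ) : PowerSeries ℂ) = PowerSeries.C ((i + 1 : ℕ) : ℂ) := by
    rw [map_natCast]
  rw [map_sub, PowerSeries.coeff_succ_X_mul, PowerSeries.coeff_derivative, hC,
    PowerSeries.coeff_C_mul, PowerSeries.coeff_C_mul] at h4
  have h5 : (((i + 1 : ℕ) : ℂ)) ≠ 0 := by exact_mod_cast Nat.succ_ne_zero i
  have h6 : ((i + 1 : ℕ) : ℂ) * PowerSeries.coeff (i + 1) (H * J ^ i) = 0 := by
    rw [h4]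
    push_cast
    ring
  exact (mul_eq_zero.1 h6).resolve_left h5

/-- `E₄³ - x Δ` -/
noncomputable def P (x : ℂ) : PowerSeries ℂ := E4 ^ 3 - PowerSeries.C x * Dl

theorem P_zero (x : ℂ) : PowerSeries.constantCoeff (P x) = 1 := by
  have h := Dl_zero
  rw [PowerSeries.coeff_zero_eq_constantCoeff_apply] at h
  simp [P, E4_zero, h]

theorem P_mul_inv (x : ℂ) : P x * (P x)⁻¹ = 1 :=
  PowerSeries.mul_inv_cancel _ (by rw [P_zero]; exact one_ne_zero)

noncomputable def K (x : ℂ) : PowerSeries ℂ := E4 ^ 2 * E6 * (P x)⁻¹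

theorem K_mul (x : ℂ) : K x * J = H + PowerSeries.X * (PowerSeries.C x * K x) := by
  have h1 := P_mul_inv x
  have h2 := U_mul_inv
  have h3 : P x = E4 ^ 3 - PowerSeries.C x * (PowerSeries.X * U) := by rw [P, Dl_eq]
  unfold K J H
  generalize hQ : (P x)⁻¹ = Q at h1 ⊢
  rw [h3] at h1
  linear_combination (E4 ^ 2 * E6 * U⁻¹) * h1 +
    (E4 ^ 2 * E6 * PowerSeries.C x * PowerSeries.X * Q) * h2

theorem coeff_JK (x : ℂ) (i : ℕ) : PowerSeries.coeff i (J ^ i * K x) = x ^ i := by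
  induction i with
  | zero =>
    rw [pow_zero, one_mul, pow_zero, PowerSeries.coeff_zero_eq_constantCoeff_apply, K]
    simp [E4_zero, E6_zero, P_zero]
  | succ i ih =>
    have e : J ^ (i + 1) * K x = H * J ^ i + PowerSeries.X * (PowerSeries.C x * (J ^ i * K x)) := by
      linear_combination (J ^ i) * K_mul x
    rw [e, map_add, coeff_HJ, zero_add, PowerSeries.coeff_succ_X_mul, PowerSeries.coeff_C_mul, ih]
    ring

/-- `Δ^ℓ E₄^a E₆^b F(j)` for `deg F ≤ ℓ`, `j = E₄³ / Δ` -/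
noncomputable def form (a b l : ℕ) (F : Polynomial ℂ) : PowerSeries ℂ :=
  ∑ i ∈ Finset.range (l + 1), PowerSeries.C (F.coeff i) * (E4 ^ (3 * i + a) * E6 ^ b * Dl ^ (l - i))

/-- the value of the Faber polynomial as a coefficient -/
theorem eval_eq (a b l m : ℕ) (ha : a ≤ 2) (hb : b ≤ 1) (hml : m ≤ l)
    (F : Polynomial ℂ) (hF : F.natDegree ≤ l)
    (hco : ∀ n ≤ l, PowerSeries.coeff n (form a b l F) = if n = m then 1 else 0) (x : ℂ) :
    F.eval x = PowerSeries.coeff (l - m)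
      (U⁻¹ ^ l * (E4 ^ (2 - a) * (E6 ^ (1 - b) * (P x)⁻¹))) := by
  set W : PowerSeries ℂ := U⁻¹ ^ l * (E4 ^ (2 - a) * (E6 ^ (1 - b) * (P x)⁻¹)) with hW
  have h1 : PowerSeries.X ^ (l + 1) ∣ form a b l F - PowerSeries.X ^ m := by
    rw [PowerSeries.X_pow_dvd_iff]
    intro n hn
    rw [map_sub, hco n (by omega), PowerSeries.coeff_X_pow]
    simp
  obtain ⟨R, hR⟩ := h1
  have h2 : form a b l F = PowerSeries.X ^ m + PowerSeries.X ^ (l + 1) * R := by
    rw [← hR]; ring
  have h3 : PowerSeries.coeff l (form a b l F * W) = PowerSeries.coeff (l - m) W := by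
    rw [h2, add_mul, map_add, PowerSeries.coeff_X_pow_mul', if_pos hml, mul_assoc,
      PowerSeries.coeff_X_pow_mul', if_neg (by omega), add_zero]
  rw [← h3, Polynomial.eval_eq_sum_range' (Nat.lt_succ_of_le hF)]
  unfold form
  rw [Finset.sum_mul, map_sum]
  refine Finset.sum_congr rfl fun i hi => ?_
  rw [Finset.mem_range] at hi
  have e1 : PowerSeries.C (F.coeff i) * (E4 ^ (3 * i + a) * E6 ^ b * Dl ^ (l - i)) * W =
      PowerSeries.C (F.coeff i) * (PowerSeries.X ^ (l - i) * (J ^ i * K x)) := by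
    have h5 : (U⁻¹) ^ l = (U⁻¹) ^ (l - i) * (U⁻¹) ^ i := by
      rw [← pow_add]
      congr 1
      omega
    have h6 : U ^ (l - i) * (U⁻¹) ^ (l - i) = 1 := by rw [← mul_pow, U_mul_inv, one_pow]
    have h7 : E4 ^ a * E4 ^ (2 - a) = E4 ^ 2 := by
      rw [← pow_add]
      congr 1
      omega
    have h8 : E6 ^ b * E6 ^ (1 - b) = E6 := by
      rw [← pow_add]
      have : b + (1 - b) = 1 := by omega
      rw [this, pow_one]
    rw [hW, h5, Dl_eq, mul_pow, pow_add]
    unfold J K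
    rw [mul_pow, ← pow_mul]
    calc _ = PowerSeries.C (F.coeff i) * (PowerSeries.X ^ (l - i) *
          (E4 ^ (3 * i) * (U⁻¹) ^ i * ((E4 ^ a * E4 ^ (2 - a)) * (E6 ^ b * E6 ^ (1 - b)) *
          (P x)⁻¹))) * (U ^ (l - i) * (U⁻¹) ^ (l - i)) := by ring
      _ = _ := by rw [h6, h7, h8]; ring
  rw [e1, PowerSeries.coeff_C_mul, PowerSeries.coeff_X_pow_mul', if_pos (by omega)]
  have h6 : l - (l - i) = i := by omega
  rw [h6, coeff_JK]

end Pool.Agent.X170.MillerPos
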