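import Pool.Agent.X170.MillerPos.Pos
import Pool.Agent.X170.MillerPos.Exists

/-!
# X170 : Miller basis forms as modular forms (MP_e05153_nt)
-/

set_option autoImplicit false

open UpperHalfPlane hiding I
open Real Complex
open scoped Manifold MatrixGroups ModularForm Topology

namespace Pool.Agent.X170.MillerPos


/-! ### vanishing -/

theorem vanish : ∀ (l : ℕ) (k : ℤ), (k < 12 * (l + 1) ∨ k = 12 * (l + 1) + 2) →
    ∀ f : ModularForm 𝒮ℒ k, (∀ n ≤ l, (qExpansion 1 f).coeff n = 0) → f = 0 := by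
  intro l
  induction l with
  | zero =>
    intro k hk f hf
    have h0 := hf 0 le_rfl
    suffices CuspForm.discriminantEquiv (ModularForm.toCuspForm f h0) = 0 by
      simpa [CuspForm.discriminantEquiv.map_eq_zero_iff, DFunLike.ext_iff]
    rcases hk with hk | hk
    · exact rank_zero_iff_forall_zero.mp (ModularForm.levelOne_neg_weight_rank_zero
        (by push_cast at hk; lia)) _
    · have h2 : k - 12 = 2 := by push_cast at hk; lia
      have hr : Module.rank ℂ (ModularForm 𝒮ℒ (k - 12)) = 0 := by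
        rw [h2]
        exact ModularForm.levelOne_weight_two_rank_zero
      exact rank_zero_iff_forall_zero.mp hr _
  | succ l ih =>
    intro k hk f hf
    have h0 := hf 0 (Nat.zero_le _)
    suffices CuspForm.discriminantEquiv (ModularForm.toCuspForm f h0) = 0 by
      simpa [CuspForm.discriminantEquiv.map_eq_zero_iff, DFunLike.ext_iff]
    refine ih (k - 12) ?_ _ ?_
    · push_cast at hk ⊢
      rcases hk with hk | hk
      · left; lia
      · right; lia
    · have h1 := ModularForm.qExpansion_eq_qExpansion_discriminant_mul f h0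
      set g := CuspForm.discriminantEquiv (ModularForm.toCuspForm f h0) with hg
      rw [qExpansion_Δ, Dl_eq, mul_assoc] at h1
      have h2 : ∀ n ≤ l, (U * qExpansion 1 g).coeff n = 0 := by
        intro n hn
        have := hf (n + 1) (by omega)
        rwa [h1, PowerSeries.coeff_succ_X_mul] at this
      have h3 : qExpansion 1 g = U⁻¹ * (U * qExpansion 1 g) := by
        rw [← mul_assoc, mul_comm U⁻¹ U, U_mul_inv, one_mul]
      intro n hn
      rw [h3, PowerSeries.coeff_mul]
      refine Finset.sum_eq_zero fun p hp => ?_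
      have := Finset.HasAntidiagonal.mem_antidiagonal.1 hp
      rw [h2 p.2 (by omega), mul_zero]

/-! ### expansions of the terms -/

theorem Good.one : Good (1 : ℍ → ℂ) := by
  refine ⟨fun z => rfl, mdifferentiable_const, ?_⟩
  exact Filter.const_boundedAtFilter _ _

theorem Good.pow {f : ℍ → ℂ} (hf : Good f) (n : ℕ) :
    Good (f ^ n) ∧ qExpansion 1 (f ^ n) = (qExpansion 1 f) ^ n := by
  induction n with
  | zero =>
    rw [pow_zero, pow_zero]
    exact ⟨Good.one, qExpansion_one 1⟩
  | succ n ih =>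
    rw [pow_succ, pow_succ]
    exact ⟨ih.1.mul hf, by rw [qExpansion_mul ih.1.analytic hf.analytic, ih.2]⟩

theorem good_term (p b r : ℕ) :
    Good ((ModularForm.E₄ : ℍ → ℂ) ^ p * (ModularForm.E₆ : ℍ → ℂ) ^ b *
      ModularForm.discriminant ^ r) ∧
    qExpansion 1 ((ModularForm.E₄ : ℍ → ℂ) ^ p * (ModularForm.E₆ : ℍ → ℂ) ^ b *
      ModularForm.discriminant ^ r) = E4 ^ p * E6 ^ b * Dl ^ r := by
  have h4 := good_E4.pow p
  have h6 := good_E6.pow b
  have hΔ := good_Δ.pow r
  refine ⟨(h4.1.mul h6.1).mul hΔ.1, ?_⟩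
  rw [qExpansion_mul (h4.1.mul h6.1).analytic hΔ.1.analytic,
    qExpansion_mul h4.1.analytic h6.1.analytic, h4.2, h6.2, hΔ.2, qExpansion_E4, qExpansion_E6,
    qExpansion_Δ]

/-- the partial combinations -/
noncomputable def comb (a b l : ℕ) (F : Polynomial ℂ) (n : ℕ) : ℍ → ℂ := fun τ =>
  ∑ i ∈ Finset.range n, F.coeff i * (ModularForm.E₄ τ ^ (3 * i + a) * ModularForm.E₆ τ ^ b *
    ModularForm.discriminant τ ^ (l - i))

theorem comb_succ (a b l : ℕ) (F : Polynomial ℂ) (n : ℕ) : comb a b l F (n + 1) =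
    comb a b l F n + F.coeff n • ((ModularForm.E₄ : ℍ → ℂ) ^ (3 * n + a) *
      (ModularForm.E₆ : ℍ → ℂ) ^ b * ModularForm.discriminant ^ (l - n)) := by
  funext τ
  simp [comb, Finset.sum_range_succ]

theorem good_comb (a b l : ℕ) (F : Polynomial ℂ) (n : ℕ) : Good (comb a b l F n) ∧
    qExpansion 1 (comb a b l F n) = ∑ i ∈ Finset.range n,
      PowerSeries.C (F.coeff i) * (E4 ^ (3 * i + a) * E6 ^ b * Dl ^ (l - i)) := by
  induction n with
  | zero =>
    have h : comb a b l F 0 = 0 := by funext τ; simp [comb]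
    rw [h, Finset.sum_range_zero]
    refine ⟨?_, qExpansion_zero 1⟩
    have := Good.one.sub Good.one
    rwa [sub_self] at this
  | succ n ih =>
    have ht := good_term (3 * n + a) b (l - n)
    rw [comb_succ]
    refine ⟨ih.1.add (ht.1.smul _), ?_⟩
    rw [qExpansion_add ih.1.analytic (ht.1.smul _).analytic, qExpansion_smul ht.1.analytic, ih.2,
      ht.2, Finset.sum_range_succ, PowerSeries.smul_eq_C_mul]

theorem qExpansion_comb (a b l : ℕ) (F : Polynomial ℂ) :
    qExpansion 1 (comb a b l F (l + 1)) = form a b l F := (good_comb a b l F (l + 1)).2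

theorem comb_eq (a b l : ℕ) (F : Polynomial ℂ) (hF : F.natDegree ≤ l) (τ : ℍ) :
    comb a b l F (l + 1) τ = ModularForm.discriminant τ ^ l * ModularForm.E₄ τ ^ a *
      ModularForm.E₆ τ ^ b * F.eval (ModularForm.E₄ τ ^ 3 / ModularForm.discriminant τ) := by
  rw [Polynomial.eval_eq_sum_range' (Nat.lt_succ_of_le hF), Finset.mul_sum]
  unfold comb
  refine Finset.sum_congr rfl fun i hi => ?_
  rw [Finset.mem_range] at hi
  have hΔ : ModularForm.discriminant τ ≠ 0 := ModularForm.discriminant_ne_zero τ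
  have h1 : ModularForm.discriminant τ ^ l =
      ModularForm.discriminant τ ^ (l - i) * ModularForm.discriminant τ ^ i := by
    rw [← pow_add]
    congr 1
    omega
  rw [h1, div_pow, pow_add, pow_mul]
  field_simp

/-! ### the combination is a modular form -/

noncomputable def Δf : ModularForm 𝒮ℒ 12 :=
  mkMF 12 ModularForm.discriminant good_Δ
    (fun A => CuspForm.discriminant.slash_action_eq' _ ⟨A, rfl⟩)

theorem exists_term (p b r : ℕ) : ∃ f : ModularForm 𝒮ℒ ((p : ℤ) * 4 + b * 6 + r * 12),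
    (f : ℍ → ℂ) = (ModularForm.E₄ : ℍ → ℂ) ^ p * (ModularForm.E₆ : ℍ → ℂ) ^ b *
      ModularForm.discriminant ^ r :=
  ⟨((ModularForm.E₄.pow p).mul (ModularForm.E₆.pow b)).mul (Δf.pow r), by
    rw [ModularForm.coe_mul, ModularForm.coe_mul, ModularForm.coe_pow, ModularForm.coe_pow,
      ModularForm.coe_pow]
    rfl⟩

theorem exists_term' (a b l i : ℕ) (hi : i ≤ l) (k : ℤ) (hk : k = 12 * l + 4 * a + 6 * b) :
    ∃ f : ModularForm 𝒮ℒ k,
    (f : ℍ → ℂ) = (ModularForm.E₄ : ℍ → ℂ) ^ (3 * i + a) * (ModularForm.E₆ : ℍ → ℂ) ^ b *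
      ModularForm.discriminant ^ (l - i) := by
  have h := exists_term (3 * i + a) b (l - i)
  have e : (((3 * i + a : ℕ) : ℤ) * 4 + b * 6 + ((l - i : ℕ) : ℤ) * 12) = k := by
    rw [hk]
    push_cast [hi]
    ring
  rw [e] at h
  exact h

theorem exists_comb (a b l : ℕ) (F : Polynomial ℂ) (k : ℤ) (hk : k = 12 * l + 4 * a + 6 * b) :
    ∀ n ≤ l + 1, ∃ f : ModularForm 𝒮ℒ k, (f : ℍ → ℂ) = comb a b l F n := by
  intro n
  induction n with
  | zero =>
    intro _
    refine ⟨0, ?_⟩
    funext τ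
    simp [comb]
  | succ n ih =>
    intro hn
    obtain ⟨f, hf⟩ := ih (by omega)
    obtain ⟨g, hg⟩ := exists_term' a b l n (by omega) k hk
    refine ⟨f + F.coeff n • g, ?_⟩
    rw [comb_succ, ← hf, ← hg]
    rfl

end Pool.Agent.X170.MillerPos
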