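import Pool.Agent.X170.MillerPos.Formal

/-!
# X170 : positivity (MP_e05153_nt)
-/

set_option autoImplicit false

namespace Pool.Agent.X170.MillerPos

open PowerSeries
open scoped ComplexOrder

/-- nonnegative coefficients and constant term `1` -/
def NN (A : PowerSeries ℂ) : Prop :=
  PowerSeries.constantCoeff A = 1 ∧ ∀ n, 0 ≤ PowerSeries.coeff n A

theorem NN.mul {A B : PowerSeries ℂ} (hA : NN A) (hB : NN B) : NN (A * B) := by
  refine ⟨by rw [map_mul, hA.1, hB.1, one_mul], fun n => ?_⟩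
  rw [PowerSeries.coeff_mul]
  exact Finset.sum_nonneg fun p _ => mul_nonneg (hA.2 _) (hB.2 _)

theorem NN.one : NN 1 := by
  refine ⟨by simp, fun n => ?_⟩
  rw [PowerSeries.coeff_one]
  split_ifs
  · exact zero_le_one
  · exact le_rfl

theorem NN.pow {A : PowerSeries ℂ} (hA : NN A) (k : ℕ) : NN (A ^ k) := by
  induction k with
  | zero => rw [pow_zero]; exact NN.one
  | succ k ih => rw [pow_succ]; exact ih.mul hA

/-- strictly positive coefficients -/
def SP (A : PowerSeries ℂ) : Prop := ∀ n, 0 < PowerSeries.coeff n A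

theorem NN.mul_SP {A B : PowerSeries ℂ} (hA : NN A) (hB : SP B) : SP (A * B) := by
  intro n
  rw [PowerSeries.coeff_mul]
  refine Finset.sum_pos' (fun p _ => mul_nonneg (hA.2 _) (hB _).le)
    ⟨(0, n), Finset.HasAntidiagonal.mem_antidiagonal.2 (by simp), ?_⟩
  rw [PowerSeries.coeff_zero_eq_constantCoeff_apply, hA.1, one_mul]
  exact hB n

theorem natCast_nonneg' (n : ℕ) : (0 : ℂ) ≤ (n : ℂ) := by exact_mod_cast Nat.zero_le n

theorem NN_E4 : NN E4 := by
  refine ⟨E4_zero, fun n => ?_⟩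
  rw [E4, PowerSeries.coeff_mk]
  split_ifs
  · exact zero_le_one
  · exact mul_nonneg (by norm_num) (natCast_nonneg' _)

theorem coeff_inv_eq (A : PowerSeries ℂ) (hA : PowerSeries.constantCoeff A = 1) (n : ℕ) :
    PowerSeries.coeff (n + 1) A⁻¹ =
      ∑ p ∈ Finset.HasAntidiagonal.antidiagonal n, (-PowerSeries.coeff (p.1 + 1) A) * PowerSeries.coeff p.2 A⁻¹ := by
  have h1 : A * A⁻¹ = 1 := PowerSeries.mul_inv_cancel _ (by rw [hA]; exact one_ne_zero)
  have h2 := congrArg (PowerSeries.coeff (n + 1)) h1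
  rw [PowerSeries.coeff_mul, Finset.Nat.antidiagonal_succ, Finset.sum_cons, Finset.sum_map,
    PowerSeries.coeff_one, if_neg (Nat.succ_ne_zero n),
    PowerSeries.coeff_zero_eq_constantCoeff_apply, hA, one_mul] at h2
  simp only [Function.Embedding.prodMap, Function.Embedding.coeFn_mk, Prod.map,
    Function.Embedding.refl_apply, Nat.succ_eq_add_one] at h2
  rw [eq_neg_of_add_eq_zero_left h2, ← Finset.sum_neg_distrib]
  exact Finset.sum_congr rfl fun p _ => by ring

theorem inv_zero (A : PowerSeries ℂ) (hA : PowerSeries.constantCoeff A = 1) :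
    PowerSeries.constantCoeff A⁻¹ = 1 := by
  rw [PowerSeries.constantCoeff_inv, hA, inv_one]

theorem SP_E6_inv : SP E6⁻¹ := by
  intro n
  induction n using Nat.strong_induction_on with
  | _ n ih =>
    cases n with
    | zero =>
      rw [PowerSeries.coeff_zero_eq_constantCoeff_apply, inv_zero _ E6_zero]
      exact one_pos
    | succ n =>
      rw [coeff_inv_eq _ E6_zero]
      have h6 : ∀ k : ℕ, 0 < -PowerSeries.coeff (k + 1) E6 := by
        intro k
        rw [E6, PowerSeries.coeff_mk, if_neg (Nat.succ_ne_zero k)]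
        have : 0 < ArithmeticFunction.sigma 5 (k + 1) :=
          ArithmeticFunction.sigma_pos _ _ (Nat.succ_ne_zero k)
        have h2 : (0 : ℂ) < (ArithmeticFunction.sigma 5 (k + 1) : ℂ) := by exact_mod_cast this
        have h3 : (0 : ℂ) < 504 := by norm_num
        have := mul_pos h3 h2
        convert this using 1
        ring
      refine Finset.sum_pos (fun p hp => mul_pos (h6 _) (ih _ ?_)) ⟨(0, n), by simp⟩
      have := Finset.HasAntidiagonal.mem_antidiagonal.1 hp
      omega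

theorem SP.pow_succ {A : PowerSeries ℂ} (hA : SP A) (h0 : PowerSeries.constantCoeff A = 1) (k : ℕ) :
    SP (A ^ (k + 1)) := by
  have h1 : NN A := ⟨h0, fun n => (hA n).le⟩
  rw [_root_.pow_succ]
  exact (h1.pow k).mul_SP hA

/-- `U⁻¹ = ∏ (1 - qⁿ)^{-24}` has nonnegative coefficients -/
theorem NN_U_inv : NN U⁻¹ := by
  refine ⟨inv_zero _ U_zero, ?_⟩
  have h1 : PowerSeries.X * PowerSeries.derivative ℂ U⁻¹ = (1 - E2s) * U⁻¹ := by
    rw [PowerSeries.derivative_inv']
    have h2 := U_mul_inv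
    have h3 := U_deriv
    linear_combination (-(U⁻¹ ^ 2)) * h3 + ((1 - E2s) * U⁻¹) * h2
  intro n
  induction n using Nat.strong_induction_on with
  | _ n ih =>
    cases n with
    | zero =>
      rw [PowerSeries.coeff_zero_eq_constantCoeff_apply, inv_zero _ U_zero]
      exact zero_le_one
    | succ n =>
      have h2 := congrArg (PowerSeries.coeff (n + 1)) h1
      rw [PowerSeries.coeff_succ_X_mul, PowerSeries.coeff_derivative, PowerSeries.coeff_mul,
        Finset.Nat.antidiagonal_succ, Finset.sum_cons, Finset.sum_map] at h2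
      have h3 : PowerSeries.coeff 0 (1 - E2s) = 0 := by
        simp [E2s]
      rw [h3, zero_mul, zero_add] at h2
      simp only [Function.Embedding.prodMap, Function.Embedding.coeFn_mk, Prod.map,
        Function.Embedding.refl_apply, Nat.succ_eq_add_one] at h2
      have h4 : (0 : ℂ) ≤ PowerSeries.coeff (n + 1) U⁻¹ * ((n : ℂ) + 1) := by
        rw [h2]
        refine Finset.sum_nonneg fun p hp => mul_nonneg ?_ (ih _ ?_)
        · rw [map_sub, PowerSeries.coeff_one, if_neg (Nat.succ_ne_zero _), E2s,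
            PowerSeries.coeff_mk, if_neg (Nat.succ_ne_zero _)]
          have := mul_nonneg (by norm_num : (0 : ℂ) ≤ 24)
            (natCast_nonneg' (ArithmeticFunction.sigma 1 (p.1 + 1)))
          convert this using 1
          ring
        · have := Finset.HasAntidiagonal.mem_antidiagonal.1 hp
          omega
      have h5 : (0 : ℂ) < ((n : ℂ) + 1) := by exact_mod_cast Nat.succ_pos n
      have h6 : PowerSeries.coeff (n + 1) U⁻¹ =
          (PowerSeries.coeff (n + 1) U⁻¹ * ((n : ℂ) + 1)) * ((((n : ℝ) + 1)⁻¹ : ℝ) : ℂ) := by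
        push_cast
        rw [mul_assoc, mul_inv_cancel₀ h5.ne', mul_one]
      rw [h6]
      refine mul_nonneg h4 (Complex.zero_le_real.2 (by positivity))

/-- `R = E₆² / (E₆² - y Δ)` -/
noncomputable def R (y : ℂ) : PowerSeries ℂ := E6 ^ 2 * (P (1728 + y))⁻¹

theorem P_eq (y : ℂ) : P (1728 + y) = E6 ^ 2 - PowerSeries.C y * Dl := by
  unfold P
  have h := Dl_1728
  have e : (PowerSeries.C (1728 + y) : PowerSeries ℂ) = 1728 + PowerSeries.C y := by
    rw [map_add]
    congr 1
  rw [e]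
  linear_combination -h

theorem R_eq (y : ℂ) : R y = 1 + PowerSeries.X * (PowerSeries.C y * (U * (E6⁻¹ ^ 2 * R y))) := by
  have h1 := P_mul_inv (1728 + y)
  have h2 := P_eq y
  have h6 := E6_mul_inv
  have h7 : E6 ^ 2 * E6⁻¹ ^ 2 = 1 := by rw [← mul_pow, h6, one_pow]
  unfold R
  generalize (P (1728 + y))⁻¹ = Q at h1 ⊢
  rw [h2, Dl_eq] at h1
  linear_combination h1 - (PowerSeries.X * PowerSeries.C y * U * Q) * h7

theorem pos (y : ℂ) (hy : 0 ≤ y) (c : ℕ) : ∀ n s d : ℕ, n ≤ s →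
    0 < PowerSeries.coeff n (U⁻¹ ^ s * (E4 ^ c * (E6⁻¹ ^ (d + 1) * R y))) := by
  intro n
  induction n with
  | zero =>
    intro s d _
    rw [PowerSeries.coeff_zero_eq_constantCoeff_apply]
    simp only [map_mul, map_pow, inv_zero _ U_zero, E4_zero, inv_zero _ E6_zero, one_pow, one_mul,
      R, E6_zero, inv_zero _ (P_zero _)]
    norm_num
  | succ n ih =>
    intro s d hs
    obtain ⟨s, rfl⟩ : ∃ s', s = s' + 1 := ⟨s - 1, by omega⟩
    have e : U⁻¹ ^ (s + 1) * (E4 ^ c * (E6⁻¹ ^ (d + 1) * R y)) =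
        (U⁻¹ ^ (s + 1) * E4 ^ c) * E6⁻¹ ^ (d + 1) +
        PowerSeries.X * (PowerSeries.C y * (U⁻¹ ^ s * (E4 ^ c * (E6⁻¹ ^ (d + 2 + 1) * R y)))) := by
      have h1 := R_eq y
      have h2 := U_mul_inv
      linear_combination (U⁻¹ ^ (s + 1) * (E4 ^ c * (E6⁻¹ ^ (d + 1)))) * h1 +
        (PowerSeries.X * PowerSeries.C y * U⁻¹ ^ s * E4 ^ c * E6⁻¹ ^ (d + 3) * R y) * h2
    rw [e, map_add, PowerSeries.coeff_succ_X_mul, PowerSeries.coeff_C_mul]
    exact add_pos_of_pos_of_nonneg
      (((NN_U_inv.pow _).mul (NN_E4.pow _)).mul_SP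
        (SP_E6_inv.pow_succ (inv_zero _ E6_zero) d) (n + 1))
      (mul_nonneg hy (ih s (d + 2) (by omega)).le)

/-- the main inequality -/
theorem eval_pos (a b l m : ℕ) (ha : a ≤ 2) (hb : b ≤ 1) (hml : m ≤ l)
    (F : Polynomial ℂ) (hF : F.natDegree ≤ l)
    (hco : ∀ n ≤ l, PowerSeries.coeff n (form a b l F) = if n = m then 1 else 0)
    (x : ℝ) (hx : 1728 ≤ x) : 0 < F.eval (x : ℂ) := by
  rw [eval_eq a b l m ha hb hml F hF hco]
  have hy : (0 : ℂ) ≤ ((x - 1728 : ℝ) : ℂ) := by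
    exact_mod_cast sub_nonneg.2 hx
  have h1 := pos _ hy (2 - a) (l - m) l b (by omega)
  have e : E6⁻¹ ^ (b + 1) * R ((x - 1728 : ℝ) : ℂ) = E6 ^ (1 - b) * (P (x : ℂ))⁻¹ := by
    unfold R
    have e1 : (1728 : ℂ) + ((x - 1728 : ℝ) : ℂ) = (x : ℂ) := by push_cast; ring
    rw [e1]
    have h6 := E6_mul_inv
    have h7 : E6⁻¹ ^ (b + 1) * E6 ^ 2 = E6 ^ (1 - b) := by
      have h8 : E6 ^ 2 = E6 ^ (b + 1) * E6 ^ (1 - b) := by
        rw [← pow_add]
        congr 1
        omega
      rw [h8, ← mul_assoc, ← mul_pow, mul_comm E6⁻¹ E6, h6, one_pow, one_mul]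
    rw [← mul_assoc, h7]
  rw [e] at h1
  exact h1

end Pool.Agent.X170.MillerPos
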